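import Pool.Agent.Helper6.CS.Goals1

/-!
# Project CS: packet SHB (adding a block to a system)
-/

namespace Pool.Agent.Helper66.CS

open Pool.Agent.Helper6.CS

set_option synthInstance.maxSize 1000000000

variable {M : Type} [World M]

instance IFn.rep {α : Type} [Cod M α] {f g : α → M} [hf : IFn M f] [hg : IFn M g] :
    IFn M fun a => Pool.Agent.Helper6.CS.rep (f a) (g a) := by
  unfold Pool.Agent.Helper6.CS.rep
  infer_instance

theorem len_rep (c n : M) : (rep c n).len = n := by
  unfold Pool.Agent.Helper6.CS.rep; rw [Wd.len_of]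

theorem get_rep (c n : M) {i : M} (h : i < n) : (rep c n).get i = c := by
  unfold Pool.Agent.Helper6.CS.rep; rw [Wd.get_of_lt _ _ h]

theorem lt_one {i : M} (h : i < 1) : i = 0 := by
  have h4 : i < 0 + 1 := by rwa [zero_add]
  rw [World.lt_succ] at h4
  exact le_antisymm h4 (World.zero_le' _)

theorem rep_succ (c n : M) : rep c (1 + n) = Wd.sg c ++ rep c n := by
  refine Wd.ext' (by simp [len_rep]) fun i hi => ?_
  rw [len_rep] at hi
  rw [get_rep _ _ hi]
  rcases Wd.lt_cases hi with h | ⟨j, hj, rfl⟩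
  · rw [lt_one h, Wd.get_append_left _ _ (by simp), Wd.get_sg_zero]
  · have h3 : (1 : M) + j = (Wd.sg c).len + j := by simp
    rw [h3, Wd.get_append_right, get_rep _ _ hj]

open Classical in
theorem sub_rep (x c e n : M) : Wd.sub x c (rep e n) = rep (if e = x then c else e) n := by
  refine Wd.ext' (by simp [len_rep]) fun i hi => ?_
  simp only [Wd.len_sub, len_rep] at hi
  rw [Wd.get_sub _ _ _ (by rwa [len_rep]), get_rep _ _ hi, get_rep _ _ hi]

theorem over_rep {b c : M} (h : c < b) (n : M) : Over b (rep c n) := by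
  intro i hi
  rw [len_rep] at hi
  rw [get_rep _ _ hi]
  exact h

/-- The word without its first letter. -/
noncomputable def tail (a : Wd M) : Wd M := Wd.of (a.len - 1) fun j => a.get (1 + j)

instance : IFn M fun a : Wd M => tail a := by
  unfold tail
  infer_instance

theorem tail_cons (e : M) (a : Wd M) : tail (Wd.sg e ++ a) = a := by
  have hl : (Wd.sg e ++ a).len - 1 = a.len := by
    rw [Wd.len_append, Wd.len_sg, add_tsub_cancel_left]
  unfold tail
  refine Wd.ext' (by rw [Wd.len_of, hl]) fun i hi => ?_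
  rw [Wd.len_of] at hi
  rw [Wd.get_of_lt _ _ hi]
  have h3 : (1 : M) + i = (Wd.sg e).len + i := by simp
  rw [h3, Wd.get_append_right]

theorem len_blk (b e : M) {i i' n : M} (h : i ≤ i') (h' : i' ≤ n) : (blk b i i' n e).len = n := by
  unfold blk
  rw [Wd.len_append, Wd.len_append, len_rep, len_rep, len_rep, add_tsub_cancel_of_le h,
    add_tsub_cancel_of_le h']

theorem over_blk {b c e : M} (i i' n : M) (hb : b + 1 < c) (he : e < c) :
    Over c (blk b i i' n e) := by
  unfold blk
  have hb' : b < c := lt_trans ((World.lt_succ b b).2 le_rfl) hb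
  rw [Over.append_iff, Over.append_iff]
  exact ⟨⟨over_rep hb' _, over_rep he _⟩, over_rep hb _⟩

open Classical in
theorem sub_blk {b x : M} (c e i i' n : M) (hx : b + 1 < x) :
    Wd.sub x c (blk b i i' n e) = blk b i i' n (if e = x then c else e) := by
  unfold blk
  have hb' : b < x := lt_trans ((World.lt_succ b b).2 le_rfl) hx
  rw [Wd.sub_append, Wd.sub_append, sub_rep, sub_rep, sub_rep, if_neg hb'.ne, if_neg hx.ne]

theorem t_SHB : G_CDF → G_SHB := by
  intro hcdf M _ L b m n N' h' i i' hbL hii hin hS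
  classical
  obtain ⟨hS1, hS2, hS3⟩ := hS
  have hlt : b + 1 < b + 2 := by
    have h2 : (b : M) + 2 = b + 1 + 1 := by rw [add_assoc, one_add_one_eq_two]
    rw [h2]
    exact (World.lt_succ _ _).2 le_rfl
  have hlt0 : b < b + 1 := (World.lt_succ _ _).2 le_rfl
  obtain ⟨h, hh⟩ := (hcdf M L (m + 1)).2
    (fun a => if a.len = 0 then rep b i else blk b i i' n (a.get 0) ++ apw h' (tail a))
    (by unfold blk; infer_instance)
  have hnil : apw h (Wd.nil M) = rep b i := by
    rw [hh _ (Over.nil _) (by rw [Wd.len_nil]; exact World.zero_le' _)]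
    simp
  have hcons : ∀ (e : M) (a : Wd M), e < L → Over L a → a.len ≤ m →
      apw h (Wd.sg e ++ a) = blk b i i' n e ++ apw h' a := by
    intro e a he ha hl
    rw [hh _ (Over.append_iff.2 ⟨Over.sg_iff.2 he, ha⟩)
      (by rw [Wd.len_append, Wd.len_sg, add_comm]; exact add_le_add_left hl _)]
    have h1 : (Wd.sg e ++ a).len ≠ 0 := by
      rw [Wd.len_append, Wd.len_sg]
      exact (lt_of_lt_of_le zero_lt_one (le_add_of_nonneg_right (World.zero_le' _))).ne'
    rw [if_neg h1, tail_cons, Wd.get_append_left _ _ (by simp), Wd.get_sg_zero]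
  -- every word is empty or a letter followed by a word
  have hcase : ∀ a : Wd M, a = Wd.nil M ∨ ∃ e a', a = Wd.sg e ++ a' ∧ a.len = a'.len + 1 := by
    intro a
    by_cases h0 : a.len = 0
    · exact Or.inl (Wd.eq_nil_of_len h0)
    · obtain ⟨t, ht, hl⟩ := Wd.exists_cons h0
      exact Or.inr ⟨_, t, ht, hl⟩
  refine ⟨h, ⟨?_, ?_, ?_⟩, hnil, hcons⟩
  · intro a c hbc hcL ha hl
    have hb1c : b + 1 < c := lt_of_lt_of_le hlt hbc
    rcases hcase a with rfl | ⟨e, a', rfl, hl'⟩
    · rw [hnil]
      refine ⟨over_rep (lt_trans hlt0 hb1c) _, ?_⟩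
      rw [len_rep]
      exact (hii.le.trans hin).trans (le_add_of_nonneg_right (World.zero_le' _))
    · rw [Over.append_iff, Over.sg_iff] at ha
      have hla : a'.len ≤ m := by
        rw [hl'] at hl
        exact le_of_add_le_add_right hl
      rw [hcons e a' (lt_of_lt_of_le ha.1 hcL) (ha.2.mono hcL) hla]
      obtain ⟨h1, h2⟩ := hS1 a' c hbc hcL ha.2 hla
      refine ⟨Over.append_iff.2 ⟨over_blk i i' n hb1c ha.1, h1⟩, ?_⟩
      rw [Wd.len_append, len_blk b e hii.le hin]
      exact add_le_add_right h2 _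
  · intro a x c ha hl hbx hxL hcL
    have hb1x : b + 1 < x := lt_of_lt_of_le hlt hbx
    rcases hcase a with rfl | ⟨e, a', rfl, hl'⟩
    · rw [Wd.sub_nil, hnil, sub_rep, if_neg (lt_trans hlt0 hb1x).ne]
    · rw [Over.append_iff, Over.sg_iff] at ha
      have hla : a'.len ≤ m := by
        rw [hl'] at hl
        exact le_of_add_le_add_right hl
      rw [Wd.sub_append, Wd.sub_sg, hcons e a' ha.1 ha.2 hla, Wd.sub_append, sub_blk _ _ _ _ _ hb1x,
        hcons _ _ (by split_ifs; exacts [hcL, ha.1]) (Over.sub' hcL ha.2) (by rwa [Wd.len_sub]),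
        hS2 a' x c ha.2 hla hbx hxL hcL]
  · intro a e a' ha he ha' hl
    rcases hcase a with rfl | ⟨e₀, a₁, rfl, hl'⟩
    · rw [Wd.len_nil, zero_add] at hl
      have hla : a'.len ≤ m := le_of_add_le_add_right hl
      rw [Wd.nil_append, hcons e a' he ha' hla, hnil]
      obtain ⟨l, hl⟩ := World.exists_add _ _ (World.add_one_le hii)
      have hsub : i' - i = 1 + l := by
        rw [hl, add_assoc, add_tsub_cancel_left]
      refine ⟨rep e l ++ rep (b + 1) (n - i') ++ apw h' a', ?_, ?_⟩
      · rw [Over.append_iff, Over.append_iff]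
        exact ⟨⟨over_rep he _, over_rep (lt_of_lt_of_le hlt hbL) _⟩,
          (hS1 a' L hbL le_rfl ha' hla).1⟩
      · unfold blk
        rw [hsub, rep_succ]
        simp only [Wd.append_assoc]
    · rw [Over.append_iff, Over.sg_iff] at ha
      have hl2 : a₁.len + (a'.len + 1) ≤ m := by
        rw [hl', add_right_comm] at hl
        exact le_of_add_le_add_right hl
      have hla1 : a₁.len ≤ m := le_trans (le_add_of_nonneg_right (World.zero_le' _)) hl2
      obtain ⟨z, hz, hz2⟩ := hS3 a₁ e a' ha.2 he ha' hl2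
      refine ⟨z, hz, ?_⟩
      rw [hcons e₀ a₁ ha.1 ha.2 hla1]
      have h1 : Wd.sg e₀ ++ a₁ ++ Wd.sg e ++ a' = Wd.sg e₀ ++ (a₁ ++ Wd.sg e ++ a') := by
        simp only [Wd.append_assoc]
      rw [h1, hcons e₀ _ ha.1
        (by rw [Over.append_iff, Over.append_iff, Over.sg_iff]; exact ⟨⟨ha.2, he⟩, ha'⟩)
        (by rw [Wd.len_append, Wd.len_append, Wd.len_sg, add_assoc, add_comm 1]; exact hl2), hz2]
      simp only [Wd.append_assoc]

end Pool.Agent.Helper66.CS
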